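import Pool.Agent.Lib.MP_d55432_al.SIX.Iface

/-!
# CHA: the adjugate of a `4 × 4` matrix in terms of its powers and their traces
-/

namespace Pool.Agent.Lib.MP_d55432_al.SIX.H16

open Matrix

theorem det3 {A : Type*} [CommRing A] (M : Matrix (Fin 3) (Fin 3) A) :
    M.det = M 0 0 * (M 1 1 * M 2 2 - M 1 2 * M 2 1) - M 0 1 * (M 1 0 * M 2 2 - M 1 2 * M 2 0) +
      M 0 2 * (M 1 0 * M 2 1 - M 1 1 * M 2 0) := by
  rw [Matrix.det_fin_three]
  ring

theorem cha (K : Type*) [Field K] [IsAlgClosed K] [CharZero K] : CHA_S K := by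
  intro X
  ext i j
  rw [Matrix.adjugate_fin_succ_eq_det_submatrix, det3]
  have h2 : ∀ i j : Fin 4, (X * X) i j = X i 0 * X 0 j + X i 1 * X 1 j + X i 2 * X 2 j +
      X i 3 * X 3 j := by
    intro i j
    rw [Matrix.mul_apply, Fin.sum_univ_four]
  have h3 : ∀ i j : Fin 4, (X * X * X) i j = (X * X) i 0 * X 0 j + (X * X) i 1 * X 1 j +
      (X * X) i 2 * X 2 j + (X * X) i 3 * X 3 j := by
    intro i j
    rw [Matrix.mul_apply, Fin.sum_univ_four]
  have ht : ∀ Y : M4 K, Y.trace = Y 0 0 + Y 1 1 + Y 2 2 + Y 3 3 := by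
    intro Y
    rw [Matrix.trace, Fin.sum_univ_four]
    rfl
  simp only [adj4, Matrix.add_apply, Matrix.sub_apply, Matrix.neg_apply, Matrix.smul_apply,
    smul_eq_mul, ht, h3, h2, Matrix.submatrix_apply]
  fin_cases i <;> fin_cases j <;>
    simp [Fin.succAbove, Fin.lt_def] <;> ring

end Pool.Agent.Lib.MP_d55432_al.SIX.H16
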